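import Pool.Agent.Mg.F418f02a.G77f574
import Pool.Agent.Mg.F418f02.G50f601

/-! The conjectured `A₁` bound for homogeneous singular integrals whose angular part has a
modulus of continuity satisfying a Dini condition weakened by half a logarithm. -/

open MeasureTheory Filter Topology Pool.Agent.MP_418f02_an
open scoped ENNReal

theorem Pool.Agent.Results.MP_418f02_an.HalfLogDini.result :
    ∀ d : ℕ, 1 ≤ d → ∃ C : ℝ, 0 < C ∧
    ∀ Ω : EuclideanSpace ℝ (Fin d) → ℝ, Measurable Ω → ∀ M : ℝ, (∀ x, |Ω x| ≤ M) →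
    (∫ y in {y : EuclideanSpace ℝ (Fin d) | 1 ≤ ‖y‖ ∧ ‖y‖ ≤ 2}, Ω (‖y‖⁻¹ • y)) = 0 →
      ∀ ω : ℕ → ℝ,
        (∀ (i : ℕ) (u v : EuclideanSpace ℝ (Fin d)), ‖u‖ = 1 → ‖v‖ = 1 →
          ‖u - v‖ ≤ Real.exp (-(2 : ℝ) ^ i) → |Ω u - Ω v| ≤ ω i) →
      ∀ p : ℝ, 1 < p →
      ∀ S : ℝ, (∀ I : ℕ, (2 : ℝ) ^ I ≤ 2 * (p / (p - 1)) ^ 2 →
          ∑ i ∈ Finset.range (I + 1), √((2 : ℝ) ^ i) * ω i ≤ S) →
      ∀ w : EuclideanSpace ℝ (Fin d) → ℝ, LocallyIntegrable w volume → (∀ᵐ x, 0 < w x) →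
      ∀ A : ℝ,
        (∀ (c : EuclideanSpace ℝ (Fin d)) (r : ℝ), 0 < r →
          ∀ᵐ x ∂(volume : Measure (EuclideanSpace ℝ (Fin d))),
            x ∈ Metric.ball c r → (⨍ y in Metric.ball c r, w y) ≤ A * w x) →
      ∀ f : EuclideanSpace ℝ (Fin d) → ℝ, ContDiff ℝ (⊤ : ℕ∞) f → HasCompactSupport f →
      ∀ Tf : EuclideanSpace ℝ (Fin d) → ℝ,
        (∀ x, Tendsto
          (fun ε : ℝ => ∫ y in {y : EuclideanSpace ℝ (Fin d) | ε < ‖y‖},
              Ω (‖y‖⁻¹ • y) / ‖y‖ ^ d * f (x - y))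
          (𝓝[>] (0 : ℝ)) (𝓝 (Tf x))) →
        eLpNorm Tf (ENNReal.ofReal p)
            ((volume : Measure (EuclideanSpace ℝ (Fin d))).withDensity
              (fun x => ENNReal.ofReal (w x)))
          ≤ ENNReal.ofReal (C * (M + S) * (p * (p / (p - 1)) * A)) *
            eLpNorm f (ENNReal.ofReal p)
              ((volume : Measure (EuclideanSpace ℝ (Fin d))).withDensity
                (fun x => ENNReal.ofReal (w x))) := by
  intro d hd
  obtain ⟨C₁, hC₁, h1⟩ := kb_mod hd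
  obtain ⟨C₂, hC₂, h2⟩ := a1_of_ball (d := d)
  have hc : (0 : ℝ) < (2 ^ d - 1) / d :=
    div_pos (sub_pos.2 (one_lt_pow₀ one_lt_two (by omega))) (Nat.cast_pos.2 hd)
  refine ⟨C₁ * C₂ / ((2 ^ d - 1) / d), by positivity,
    fun Ω hΩ M hM h0 ω hω p hp S hS w hw hw0 A hA f hf hfs Tf hT => ?_⟩
  rcases ((abs_nonneg _).trans (hM 0)).eq_or_lt with rfl | hM0
  · have hz : Tf = 0 := funext fun x => by
      have := hT x
      simp only [fun y => abs_nonpos_iff.1 (hM y), zero_div, zero_mul, integral_zero] at this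
      exact tendsto_nhds_unique this tendsto_const_nhds
    simp [hz]
  obtain ⟨hA1, w', hw', hA'⟩ := h2 w A hw hw0 hA
  have hk := isKer_kO hΩ hM0 hM h0
  have hfn : Nice f := by
    refine ⟨hf.continuous.measurable, ?_, ?_⟩
    · obtain ⟨B, hB⟩ := hf.continuous.bounded_above_of_compact_support hfs
      exact ⟨B, hB⟩
    · obtain ⟨R, hR⟩ := hfs.isCompact.isBounded.exists_norm_le
      exact ⟨R, fun x hx => image_eq_zero_of_notMem_tsupport fun h => (hR x h).not_gt hx⟩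
  have hp0 : 0 < p := by linarith
  have hp1 : 0 < p - 1 := sub_pos.2 hp
  have hA0 : 0 < A := by linarith
  set q := p / (p - 1) with hq
  have hq1 : 1 ≤ q := (one_le_div hp1).2 (by linarith)
  obtain ⟨I, hI1, hI2⟩ : ∃ I : ℕ, q ^ 2 ≤ 2 ^ I ∧ (2 : ℝ) ^ I ≤ 2 * q ^ 2 := by
    obtain ⟨n, hn1, hn2⟩ := exists_nat_pow_near (one_le_pow₀ (n := 2) hq1) one_lt_two
    exact ⟨n + 1, hn2.le, by rw [pow_succ]; linarith⟩
  set c : ℝ := (2 ^ d - 1) / d / M with hcd
  have hc0 : 0 < c := div_pos hc hM0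
  have hlim := fun x => TT_tendsto hd hΩ hM hk hfn x (hT x)
  have hm := fun J : ℕ => (TT_nice hk hfn (-J) J).meas
  have hden : (volume : Measure (E d)).withDensity (fun x => ENNReal.ofReal (w x)) =
      volume.withDensity fun x => ENNReal.ofReal (w' x) :=
    withDensity_congr_ae (hw'.mono fun x hx => by simp only [hx])
  have h3 := Lp.eLpNorm_le_of_ae_tendsto (g := c • Tf) (Eventually.of_forall fun J : ℕ =>
    h1 Ω M hΩ hM0 hM h0 ω hω p hp I hI1 w' f _ (-J) J hA' hfn)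
    (fun J => (hm J).aestronglyMeasurable) (Eventually.of_forall hlim)
  rw [eLpNorm_const_smul, Real.enorm_eq_ofReal hc0.le] at h3
  rw [hden]
  calc _ = ENNReal.ofReal c⁻¹ * (ENNReal.ofReal c * eLpNorm Tf (ENNReal.ofReal p)
        (volume.withDensity fun x => ENNReal.ofReal (w' x))) := by
        rw [← mul_assoc, ← ENNReal.ofReal_mul (by positivity), inv_mul_cancel₀ hc0.ne',
          ENNReal.ofReal_one, one_mul]
    _ ≤ _ := mul_le_mul_right h3 _
    _ ≤ _ := by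
        rw [← mul_assoc, ← ENNReal.ofReal_mul (by positivity)]
        refine mul_le_mul_left (ENNReal.ofReal_le_ofReal ?_) _
        calc _ ≤ c⁻¹ * (C₁ * p * q * (M + S) / M * (C₂ * A)) := by
              gcongr
              exact hS I hI2
          _ = _ := by
              rw [hcd]
              field_simp
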